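import Mathlib
import Pool.Agent.Run7.h17.Idx
import Pool.Agent.Run7.h223.LE1

/-!
# Prime tuples `s 1 (n) + h 1, ..., s k (n) + h k` along arbitrary sequences: mean squares over all classes of the index `n`

For instance `p_n + h` prime, in the residue classes of the index `n` (with `θ = 1` on the multiples of a number, or on the squares).
Let `s i` be arbitrary sequences of integers which take every value only a few times, for instance `s i (n) = p_n`, the
`n`-th prime (lemma `primes_positions`). For almost all vectors of shifts `h i` from families of nearly minimal additive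
energy (all integers up to `x`, the elements of an arbitrary set of `x / log ^ C x` integers, the values of a polynomial)
let `R(n) = θ(n) (∏ Λ(s i (n) + h i) - ∏ model(s i (n) + h i))`, with an arbitrary weight `θ`. Then the sum over all
`q ≤ Q` and all classes `b` modulo `q` of the squares of the sums of `R(n)` over the indices `n` in the class is
`Q ∑ R(n) ^ 2 + O(x ^ 2 / log ^ U x)`, for all `Q` and all lengths (the theorem of Barban, Davenport, Halberstam,
Montgomery and Hooley in this situation). So the indices `n` for which all `s i (n) + h i` are prime are distributed in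
the residue classes as the sieve predicts, although nothing is assumed on the distribution of the sequences.

Used: the starting files `Pool.Agent.H373R2.T7` (sieve model and energies), `Pool.Agent.H560R3.GB` (von Mangoldt's
function along families of small energy) and the large sieve of `Pool.Agent.Helper112`. From Mathlib:
`ArithmeticFunction.vonMangoldt` is von Mangoldt's function `Λ`; `Finset.Icc 1 x` are the integers from `1` to `x`,
`Finset.range q` those from `0` to `q - 1`; `Int.toNat n = 0` for negative `n`, and `Λ(0) = 0`.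
-/

set_option autoImplicit false

namespace Pool.Agent.Results.MP_be93de_nt.ClassesOfTheIndex

open Finset

/-- The additive energy of order `p` of the family `v 1, ..., v M`: the number of solutions of
`v (m 1) + ... + v (m p) = v (m' 1) + ... + v (m' p)` with all `m i`, `m' i` in `{1, ..., M}`. -/
def energy (p M : ℕ) (v : ℕ → ℤ) : ℕ :=
  (((Fintype.piFinset fun _ : Fin p => Icc 1 M) ×ˢ (Fintype.piFinset fun _ : Fin p => Icc 1 M)).filter
    (fun q => ∑ i, v (q.1 i) = ∑ i, v (q.2 i))).card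

/-- The family `v 1, ..., v M` has members of absolute value at most `x log ^ κ x`, and its additive energy of some order
`p ≤ h` is at most `log ^ κ x` times `M ^ (2 p) / x`. -/
def Spread (h κ x M : ℕ) (v : ℕ → ℤ) : Prop :=
  (∀ m ∈ Icc 1 M, |(v m : ℝ)| ≤ Real.log x ^ κ * x) ∧
    ∃ p : ℕ, 1 ≤ p ∧ p ≤ h ∧ (energy p M v : ℝ) * x ≤ Real.log x ^ κ * (M : ℝ) ^ (2 * p)

/-- The numbers `s 1, ..., s x` have absolute value at most `x log ^ κ x`, and every value is taken at most `log ^ κ x`
times. -/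
def Positions (κ x : ℕ) (s : ℕ → ℤ) : Prop :=
  (∀ n ∈ Icc 1 x, |(s n : ℝ)| ≤ Real.log x ^ κ * x) ∧
    ∀ c : ℤ, (((Icc 1 x).filter (fun n => s n = c)).card : ℝ) ≤ Real.log x ^ κ

/-- Von Mangoldt's function on the integers; it is `0` at the integers `n ≤ 0`. -/
noncomputable def vM (n : ℤ) : ℝ := ArithmeticFunction.vonMangoldt n.toNat

/-- The sieve model: the positive integers without prime factors up to `z` have the weight `∏_{p ≤ z} (1 - 1 / p)⁻¹`,
the other integers the weight `0`. -/
noncomputable def model (z : ℕ) (n : ℤ) : ℝ :=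
  if 1 ≤ n ∧ ∀ p ∈ (Icc 1 z).filter Nat.Prime, ¬ p ∣ n.toNat then
    (∏ p ∈ (Icc 1 z).filter Nat.Prime, (1 - 1 / (p : ℝ)))⁻¹ else 0

/-- `R(n) = θ(n) (∏_i Λ(s i (n) + c i) - ∏_i model(s i (n) + c i))`. -/
noncomputable def R {k : ℕ} (z : ℕ) (θ : ℕ → ℝ) (s : Fin k → ℕ → ℤ) (c : Fin k → ℤ) (n : ℕ) : ℝ :=
  θ n * (∏ i, vM (s i n + c i) - ∏ i, model z (s i n + c i))

/-- For all lengths `y ≤ x` and all `Q`: the sum over the moduli `q ≤ Q` and the classes `b` modulo `q` of the squares of
the sums of `R(n)` over the indices `n ≤ y` in the class is `Q ∑_{n ≤ y} R(n) ^ 2`, up to at most `x ^ 2 / log ^ U x`. -/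
def MeanSquare (U x z : ℕ) {k : ℕ} (θ : ℕ → ℝ) (s : Fin k → ℕ → ℤ) (c : Fin k → ℤ) : Prop :=
  ∀ y : ℕ, y ≤ x → ∀ Q : ℕ,
    |∑ q ∈ Icc 1 Q, ∑ b ∈ range q, (∑ n ∈ (Icc 1 y).filter (fun n => n % q = b), R z θ s c n) ^ 2 -
      Q * ∑ n ∈ Icc 1 y, R z θ s c n ^ 2| ≤ (x : ℝ) ^ 2 / Real.log x ^ U

lemma lam_eq (n : ℤ) : Pool.Agent.H373R2.T7.lamI n = vM n := by
  unfold Pool.Agent.H373R2.T7.lamI vM
  split_ifs with h
  · rfl
  · have : n.toNat = 0 := Int.toNat_of_nonpos (by omega)
    rw [this]
    simp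

lemma lamz_eq (z : ℕ) (n : ℤ) : Pool.Agent.H373R2.T7.lamzI z n = model z n := by
  unfold Pool.Agent.H373R2.T7.lamzI Pool.Agent.H373R2.T7.lamz model
  by_cases h : 1 ≤ n
  · rw [if_pos h]
    by_cases h2 : ∀ p ∈ Pool.Agent.H373R2.T7.pz z, ¬ p ∣ n.toNat
    · rw [if_pos h2, if_pos ⟨h, h2⟩]
      rfl
    · rw [if_neg h2, if_neg (fun h3 => h2 h3.2)]
  · rw [if_neg h, if_neg (fun h3 => h h3.1)]

/-- the primes `p_1 = 2`, `p_2 = 3`, ..., are such a sequence of positions -/
lemma primes_positions : ∃ x₀ : ℕ, ∀ x : ℕ, x₀ ≤ x → Positions 2 x (fun n => (Nat.nth Nat.Prime (n - 1) : ℤ)) := by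
  obtain ⟨n1, h1⟩ := Pool.Agent.Run7.h17.Pos.pn_bound
  obtain ⟨n2, h2⟩ := Pool.Agent.H373R2.T7.ev_L' 1
  refine ⟨n1 + n2, fun x hx => ⟨fun n hn => ?_, fun c => ?_⟩⟩
  · have := h1 x (by omega) n hn
    unfold Pool.Agent.Run7.h17.Pos.pn at this
    rw [Int.cast_natCast, Nat.abs_cast]
    exact this
  · have hL := h2 x (by omega)
    have e1 := Pool.Agent.Run7.h17.Pos.card_le_of_inj x (fun n => (Nat.nth Nat.Prime (n - 1) : ℤ)) (by
      intro a ha b hb hab
      simp only at hab
      have h3 : Nat.nth Nat.Prime (a - 1) = Nat.nth Nat.Prime (b - 1) := by exact_mod_cast hab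
      exact Pool.Agent.Run7.h17.Pos.pn_inj x ha hb h3) c
    exact (by exact_mod_cast e1 : (((Icc 1 x).filter (fun n => (Nat.nth Nat.Prime (n - 1) : ℤ) = c)).card : ℝ) ≤ 1).trans
      (one_le_pow₀ hL)

open Classical in
/-- Let `k`, `h`, `κ`, `U` be fixed. There is `B₀` such that for all `E` and all large `x` the following holds for all
sequences `s i` of positions (`Positions`), `i < k`, all families `v i 1, ..., v i (M i)` of nearly minimal energy
(`Spread`), all `z` between `log ^ B₀ x` and `log ^ E x`, and all families of at most `log ^ κ x` weights `θ l`, bounded by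
`log ^ κ x` on `[1, x]`. For all vectors `(v i (m i))_i` of shifts from the families but at most the proportion
`1 / log ^ U x` of them, for all `l`, the asymptotic formula `MeanSquare` for the mean square over the classes of the
index holds, for all lengths and all `Q`. -/
theorem result (k h κ U : ℕ) : ∃ B₀ : ℕ, ∀ E : ℕ, ∃ x₀ : ℕ, ∀ x : ℕ, x₀ ≤ x →
    ∀ s : Fin k → ℕ → ℤ, (∀ i, Positions κ x (s i)) →
    ∀ (M : Fin k → ℕ) (v : Fin k → ℕ → ℤ), (∀ i, Spread h κ x (M i) (v i)) →
    ∀ z : ℕ, Real.log x ^ B₀ ≤ z → (z : ℝ) ≤ Real.log x ^ E →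
    ∀ L : ℕ, (L : ℝ) ≤ Real.log x ^ κ → ∀ θ : Fin L → ℕ → ℝ, (∀ l, ∀ n ∈ Icc 1 x, |θ l n| ≤ Real.log x ^ κ) →
    (((Fintype.piFinset (fun i => Icc 1 (M i))).filter (fun m : Fin k → ℕ =>
      ¬ ∀ l, MeanSquare U x z (θ l) s (fun i => v i (m i)))).card : ℝ) ≤ (∏ i, (M i : ℝ)) / Real.log x ^ U := by
  obtain ⟨B0, hB0⟩ := Pool.Agent.Run7.h17.Pos.pos_var k h κ U
  refine ⟨B0, fun E => ?_⟩
  obtain ⟨n1, h1⟩ := hB0 E
  refine ⟨n1, fun x hx s hs M v hv z hz1 hz2 L hL θ hθ => ?_⟩
  have key := h1 x hx M s v (fun i t ht => by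
      have := (hs i).1 t ht
      push_cast
      exact this) (fun i c => (hs i).2 c) (fun i m hm => by
      have := (hv i).1 m hm
      push_cast
      exact this) (fun i => by
      obtain ⟨_, p, _, hp, hE⟩ := hv i
      exact Run7.h223.LE.spread_mono κ p h (M i) x hp _ hE) z hz1 hz2 L hL θ hθ
  refine le_trans (Nat.cast_le.mpr (card_le_card ?_)) key
  intro m hm
  rw [mem_filter] at hm ⊢
  refine ⟨hm.1, fun hgood => hm.2 ?_⟩
  intro l y hy Q
  have h5 := hgood l y hy Q
  have e1 : ∀ t : ℕ, θ l t * Pool.Agent.Run7.h17.Pos.pq z s v m t = R z (θ l) s (fun i => v i (m i)) t := by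
    intro t
    unfold R Pool.Agent.Run7.h17.Pos.pq
    simp_rw [lam_eq, lamz_eq]
  have e3 : ∀ q b, (∑ t ∈ Icc 1 y, if t % q = b then θ l t * Pool.Agent.Run7.h17.Pos.pq z s v m t else 0) =
      ∑ t ∈ (Icc 1 y).filter (fun t => t % q = b), R z (θ l) s (fun i => v i (m i)) t := by
    intro q b
    rw [sum_filter]
    exact sum_congr rfl fun t _ => by rw [e1 t]
  rw [sum_congr rfl fun q _ => sum_congr rfl fun b _ => by rw [e3 q b],
    sum_congr rfl fun (t : ℕ) (_ : t ∈ Icc 1 y) => by rw [e1 t]] at h5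
  exact h5

end Pool.Agent.Results.MP_be93de_nt.ClassesOfTheIndex
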