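import Mathlib
import Pool.Agent.Run7.h545.MG.DC
import Pool.Agent.Run7.h545.MG.ALL

/-!
# The primes among `p_{kn} + h` and `p_{k²n} + h` with `k ≤ log n`: almost as many `h ≤ n^θ` as possible

`p_i` is the `i`-th prime. A single index `kn` gives at most about `n^θ / log n` integers `h ≤ n^θ` for which `p_{kn} + h` is
prime. We show that the `log n` indices `kn`, `k ≤ log n`, together give almost a positive proportion of all `h`:

* for ALL large `n` at least `a n^θ / log log n` such `h`, if `θ` is near `1`, and the same for the indices `k²n`;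
* for every `θ > 0`, for almost all `n`, at least `n^θ / (log log n)^(4 log 2 - 1 + ε)` such `h`, `4 log 2 - 1 = 1.77...`;
* for every `θ > 0`, for at least `N^θ / (log log N)^(4 log 2 - 1 + ε)` of the integers `h ≤ N^θ`, the question with `h` in
  place of `2` is answered by a `k ≤ log n` for at least `N / (log log N)^(4 log 2 - 1 + ε)` of the `n ≤ N`.

Proof. Nothing is known on the joint distribution of the primes `p_{kn}`, `k ≤ log n`. Two sets of `h` are compared by the
upper bound sieve for pairs, with the worst case `log log n` of the singular series. The sets are large for all `n` if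
`θ` is near `1` (Hoheisel's theorem). For small `θ` they are large unless `kn` belongs to the set `E` of the indices `j` after
which the primes are rare; `E` is of density `c`, and could contain many products `kn` even if it is sparse. It is shown
(`Few`) that this does not happen for `c = (log K)^(-(2 log 2 - 1) - δ)`, `K = log N`, from the multiplicative energy of the
products with the typical number of prime factors up to `K`, weighted with `2^(-Ω_K)`, where `Ω_K` counts these prime factors.
(The products `kn` of almost all pairs have `2 log log K` prime factors up to `K` and are contained in a set of density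
`(log K)^(-(2 log 2 - 1) + o(1))`.)

Used: `Pool.Agent.H262R2.UK` (the sieve bound for pairs), `Pool.Agent.H295R3.Hoheisel` (primes in short intervals),
`Pool.Agent.Y323.EF` (the inequality of Turán), `Pool.Agent.Helper256.KM` (Mertens) from the starting files.
-/

set_option autoImplicit false

namespace Pool.Agent.Results.MP_be93de_nt.ManyShiftsFewMultiples

open Finset

/-- the `i`-th prime: `p 1 = 2`, `p 2 = 3`, and so on -/
noncomputable def p (i : ℕ) : ℕ := Nat.nth Nat.Prime (i - 1)

open Classical in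
/-- the set of the positive integers `h ≤ n ^ θ` for which `p_{kn} + h` is prime for some `1 ≤ k ≤ log n` -/
noncomputable def V (n : ℕ) (θ : ℝ) : Finset ℕ :=
  (Icc 1 ⌊(n : ℝ) ^ θ⌋₊).filter
    (fun h => ∃ k : ℕ, 1 ≤ k ∧ (k : ℝ) ≤ Real.log n ∧ (p (k * n) + h).Prime)

open Classical in
/-- the set of the positive integers `h ≤ n ^ θ` for which `p_{k²n} + h` is prime for some `1 ≤ k ≤ log n` -/
noncomputable def V2 (n : ℕ) (θ : ℝ) : Finset ℕ :=
  (Icc 1 ⌊(n : ℝ) ^ θ⌋₊).filter
    (fun h => ∃ k : ℕ, 1 ≤ k ∧ (k : ℝ) ≤ Real.log n ∧ (p (k ^ 2 * n) + h).Prime)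

open Classical in
/-- **The primes among `p_{kn} + h` and `p_{k²n} + h` with `k ≤ log n`.** -/
theorem result :
    -- all large `n`, `θ` near `1`
    (∃ θ₀ : ℝ, θ₀ < 1 ∧ ∀ θ : ℝ, θ₀ < θ → θ ≤ 1 → ∃ a : ℝ, 0 < a ∧ ∃ n₀ : ℕ, ∀ n : ℕ, n₀ ≤ n →
      a * ((n : ℝ) ^ θ / Real.log (Real.log n)) ≤ (#(V n θ) : ℝ) ∧
      a * ((n : ℝ) ^ θ / Real.log (Real.log n)) ≤ (#(V2 n θ) : ℝ)) ∧
    -- almost all `n`, and many fixed `h`, for all `θ`
    (∀ θ ε : ℝ, 0 < θ → θ ≤ 1 → 0 < ε →
      (∀ η : ℝ, 0 < η → ∃ N₀ : ℕ, ∀ N : ℕ, N₀ ≤ N →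
        (#((Icc 1 N).filter (fun n : ℕ =>
          (#(V n θ) : ℝ) < (n : ℝ) ^ θ / Real.log (Real.log n) ^ (4 * Real.log 2 - 1 + ε))) : ℝ) ≤ η * N) ∧
      (∃ N₀ : ℕ, ∀ N : ℕ, N₀ ≤ N →
        (N : ℝ) ^ θ / Real.log (Real.log N) ^ (4 * Real.log 2 - 1 + ε) ≤
          (#((Icc 1 ⌊(N : ℝ) ^ θ⌋₊).filter (fun h : ℕ =>
            N / Real.log (Real.log N) ^ (4 * Real.log 2 - 1 + ε) ≤
              (#((Icc 1 N).filter (fun n : ℕ => h ∈ V n θ)) : ℝ))) : ℝ))) := by
  refine ⟨Run7.h545.MG.mainAll, fun θ ε hθ hθ1 hε => ?_⟩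
  have e : 1 + 2 * (2 * Real.log 2 - 1) + ε = 4 * Real.log 2 - 1 + ε := by ring
  have hl1 := Real.log_two_gt_d9
  have hl2 := Real.log_two_lt_d9
  refine ⟨fun η hη => ?_, ?_⟩
  · have h := Run7.h545.MG.mainB (by linarith) (by linarith) Run7.h545.MG.few2 θ ε η hθ hθ1 hε hη
    rw [e] at h
    exact h
  · have h := Run7.h545.MG.mainH (by linarith) (by linarith) Run7.h545.MG.few2 θ ε hθ hθ1 hε
    rw [e] at h
    exact h

end Pool.Agent.Results.MP_be93de_nt.ManyShiftsFewMultiples
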