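import Pool.Agent.Run7.h524.MG.App2

/-!
# `p_{kn} + a` prime: a Poisson law in random short lists of `k`, for all `n` up to a power of `log N` at once

Project MK of this run (primes in intervals of length `N ^ (1/3) log ^ C N` with additive characters), its consequence
`Run7.h18.MK.arb_fin`. Own library: the mixed Poisson law for almost all choices of the arguments from an arbitrary set.
New: the application to the arguments `p_{kn}`, `k` from an arbitrary dense set, for all `n ≤ log ^ T N` simultaneously.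

From Mathlib: `Nat.nth Nat.Prime i` is the prime number `i + 1` in increasing order, starting with `Nat.nth Nat.Prime 0 = 2`.
-/

set_option autoImplicit false

open Finset Polynomial

namespace Pool.Agent.Results.MP_be93de_nt.PoissonLawIndexMultiples

/-- The `i`-th prime; `p 1 = 2`. -/
noncomputable def p (i : ℕ) : ℕ := Nat.nth Nat.Prime (i - 1)

open Classical in
/-- The number of the members `k` of the list `k_1, ..., k_m` for which `p_{kn} + a` is a prime. -/
noncomputable def hits {S : Finset ℕ} {m : ℕ} (k : Fin m → {s // s ∈ S}) (n a : ℕ) : ℕ :=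
  (univ.filter fun l => (p ((k l : ℕ) * n) + a).Prime).card

open Classical in
/-- The proportion of the `k ∈ S` for which `p_{kn} + a` has no prime factor `≤ z`, divided by the product of the `1 - 1 / q`
over the primes `q ≤ z`. -/
noncomputable def sieved (S : Finset ℕ) (n z a : ℕ) : ℝ :=
  (S.filter fun k => ∀ q ≤ z, q.Prime → ¬ q ∣ p (k * n) + a).card / S.card /
    ∏ q ∈ (Icc 1 z).filter Nat.Prime, (1 - 1 / (q : ℝ))

/-- The Poisson probabilities. -/
noncomputable def poisson (lam : ℝ) (j : ℕ) : ℝ := Real.exp (-lam) * lam ^ j / j.factorial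

open Classical in
/-- Let `T ≥ 0`, `B ≥ 1` and `Λ, ε > 0`. There are `C`, `B₀`, `M₀` and `δ > 0` such that for every `E` the following holds for
all large `N`, with `L = log N`, all `z` between `L ^ B₀` and `L ^ E`, all `K` with `N ^ (1/3) L ^ C ≤ K ≤ N / L ^ C`,
all sets `S` of at least `K / L ^ T` integers `k` with `1 ≤ k ≤ K`, all sets `J` of at least `N / B` integers `a ∈ [1, N]` and
all `m` with `M₀ ≤ m ≤ Λ L`. For all lists `k_1, ..., k_m` of members of `S`, with at most `N ^ (-δ) |S| ^ m` exceptions, for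
all `n` with `1 ≤ n ≤ L ^ T` and all `j ≥ 0` simultaneously: the number of the `a ∈ J` for which exactly `j` of the numbers
`p_{k_1 n} + a, ..., p_{k_m n} + a` are primes differs by at most `ε |J|` from the sum over `a ∈ J` of the Poisson
probabilities `exp (- λ_a) λ_a ^ j / j!`, `λ_a = m (sieved S n z a) / log a`. -/
theorem result (T B : ℕ) (hB : 1 ≤ B) (Λ ε : ℝ) (hΛ : 0 < Λ) (hε : 0 < ε) :
    ∃ (C B₀ M₀ : ℕ) (δ : ℝ), 0 < δ ∧ ∀ E : ℕ, ∃ N₀ : ℕ, ∀ N : ℕ, N₀ ≤ N → ∀ z : ℕ,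
    Real.log N ^ B₀ ≤ z → (z : ℝ) ≤ Real.log N ^ E → ∀ K : ℕ,
    (N : ℝ) ^ (1 / 3 : ℝ) * Real.log N ^ C ≤ K → K * Real.log N ^ C ≤ N →
    ∀ S : Finset ℕ, S ⊆ Icc 1 K → (K : ℝ) ≤ Real.log N ^ T * S.card →
    ∀ J : Finset ℕ, J ⊆ Icc 1 N → N ≤ B * J.card →
    ∀ m : ℕ, M₀ ≤ m → (m : ℝ) ≤ Λ * Real.log N →
    (((univ : Finset (Fin m → {s // s ∈ S})).filter fun k => ¬ ∀ n : ℕ, 1 ≤ n → (n : ℝ) ≤ Real.log N ^ T → ∀ j : ℕ,
      |((J.filter fun a => hits k n a = j).card : ℝ) - ∑ a ∈ J, poisson (m * (sieved S n z a / Real.log a)) j| ≤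
        ε * J.card).card : ℝ) ≤
      (N : ℝ) ^ (-δ) * (S.card : ℝ) ^ m := by
  obtain ⟨C, B₀, M₀, δ, hδ, h⟩ := Pool.Agent.Run7.h524.MG.app_index T B hB Λ hΛ ε hε
  refine ⟨C, B₀, M₀, δ, hδ, fun E => ?_⟩
  obtain ⟨N₀, h⟩ := h E
  refine ⟨N₀, fun N hN z hz1 hz2 K hK1 hK2 S hS hSK J hJ hJB m hm1 hm2 => ?_⟩
  have h1 := h N hN z hz1 hz2 K hK1 hK2 S hS hSK J hJ hJB m hm1 hm2
  have hG : ∀ n a : ℕ, sieved S n z a =
      Pool.Agent.Run7.h524.MG.Gz X S (fun s => Pool.Agent.Run7.h524.MG.pn (s * n)) z (a : ℤ) := by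
    intro n a
    unfold sieved Pool.Agent.Run7.h524.MG.Gz
    have e1 : ∀ s : ℕ, Pool.Agent.H373R2.T7.lamzI z ((a : ℤ) + (X : ℤ[X]).eval ((Pool.Agent.Run7.h524.MG.pn (s * n) : ℕ) : ℤ)) =
        if (∀ q ≤ z, q.Prime → ¬ q ∣ p (s * n) + a) then (∏ q ∈ (Icc 1 z).filter Nat.Prime, (1 - 1 / (q : ℝ)))⁻¹ else 0 := by
      intro s
      have e2 : (a : ℤ) + (X : ℤ[X]).eval ((Pool.Agent.Run7.h524.MG.pn (s * n) : ℕ) : ℤ) = ((p (s * n) + a : ℕ) : ℤ) := by
        rw [eval_X]
        unfold Pool.Agent.Run7.h524.MG.pn p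
        push_cast
        ring
      have e3 : 1 ≤ p (s * n) + a := by
        have : 0 < p (s * n) := (Nat.prime_nth_prime _).pos
        omega
      rw [e2]
      unfold Pool.Agent.H373R2.T7.lamzI Pool.Agent.H373R2.T7.lamz Pool.Agent.H373R2.T7.Vz
      rw [if_pos (by exact_mod_cast e3), Int.toNat_natCast]
      have e4 : (∀ q ∈ Pool.Agent.H373R2.T7.pz z, ¬ q ∣ p (s * n) + a) ↔ ∀ q ≤ z, q.Prime → ¬ q ∣ p (s * n) + a := by
        constructor
        · intro h q hq hqp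
          exact h q (Pool.Agent.H373R2.T7.mem_pz.2 ⟨hq, hqp⟩)
        · intro h q hq
          obtain ⟨h1, h2⟩ := Pool.Agent.H373R2.T7.mem_pz.1 hq
          exact h q h1 h2
      simp only [e4]
      rfl
    simp only [e1]
    rw [← sum_filter, sum_const, nsmul_eq_mul]
    rw [div_div, mul_comm (S.card : ℝ), ← div_div, div_eq_mul_inv _ (∏ q ∈ (Icc 1 z).filter Nat.Prime, (1 - 1 / (q : ℝ)))]
  unfold poisson hits
  simp only [hG]
  refine le_trans (Nat.cast_le.2 (card_le_card fun ω hω => ?_)) h1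
  rw [mem_filter] at hω ⊢
  refine ⟨mem_univ _, fun h3 => hω.2 fun n hn1 hn2 j => ?_⟩
  have h4 := h3 n hn1 hn2 j
  unfold Pool.Agent.Run7.h524.MG.pw at h4
  exact h4

end Pool.Agent.Results.MP_be93de_nt.PoissonLawIndexMultiples
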