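import Pool.Agent.Run7.h965.MX.IdxS

/-!
# Infinite systems of gaps `p_(i+1) - p_i` which occur for `i` in every residue class

The question asks for multiples `kn` of `n` with `p_(kn) + 2` prime, that is, for the gap `2` at indices
divisible by `n`. Here are infinite systems of gaps, and of vectors of consecutive gaps, ALL of which
occur at indices `i` in every residue class modulo `n`, for all `n` up to arbitrary bounds; in particular
at multiples `i = kn` of `n`, with `k` in any residue class.

1. Let `α_j`, `j = 0, 1, …`, be strictly increasing sequences of integers (the elements of arbitrary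
   infinite sets). There is ONE sequence `n_0 < n_1 < …` such that for all `j ≤ i_0 < i_1 < … < i_k` and
   all `c`, `M ≤ i_0` (or `≤ B (n_(i_0 - 1))`, `B` any function given in advance) the following holds: for
   all `R`, in every residue class modulo `M` there are infinitely many `i` with
   `p_(i+m) = p_i + c (α_j (n_(i_m)) - α_j (n_(i_0)))` for `m = 0, …, k`, with `p_i ≡ r_j` modulo `q_j`
   (`r_j` coprime to `q_j`), and with `p_(i+k+1) > p_i + R`. So every infinite set of natural numbers has an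
   infinite subset `z_0 < z_1 < …` all of whose patterns `(z_(i_0), …, z_(i_k))` are patterns of consecutive
   primes `p_(tn), p_(tn+1), …, p_(tn+k)` for infinitely many `t`, for every `n ≤ i_0`.

2. The same for functions of words. A word is a finite list of pairs (position, letter), with increasing
   positions; positions and letters are natural numbers. In a variable word some letters are replaced by a
   variable (`none`). Let `φ_j` be arbitrary integer valued functions of words which grow strictly when a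
   word is continued. There are variable words `w_0 < w_1 < …` such that for all nonempty finite sets
   `F_0 < F_1 < … < F_k` of indices `≥ j` and ALL letters `a_i` (bounded by any function of
   `w_0, …, w_(i-1)`) the numbers `c (φ_j (s_m) - φ_j (s_0))`, where `s_m` is formed by the words
   `w_i (a_i)`, `i ∈ F_0 ∪ … ∪ F_m`, are the distances of consecutive primes `p_i, …, p_(i+k)` with `i` in
   every class modulo `M`, for all `c`, `M` bounded by any function of the words before `F_0`.

3. Arrays `d_j (p, a)` of positive integers. There are finite sets of positions `V_i`, `W_i ≠ ∅`, with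
   `V_0 ∪ W_0 < V_1 ∪ W_1 < …`, and letters `b_p` such that with
   `x_i (a) = ∑_{p ∈ V_i} d_j (p, b_p) + ∑_{p ∈ W_i} d_j (p, a)` and `x_F = ∑_{i ∈ F} x_i (a_i)` ALL vectors
   `(c x_{F_0}, …, c x_{F_k})` are vectors of consecutive gaps `p_(i+1) - p_i, …, p_(i+k+1) - p_(i+k)` with
   `i` in every residue class modulo `M`, for all products `c` of numbers `x_i (a_i)`, `i ∈ E`, `E < F_0`
   (the letters `a_i` and `M` are bounded by any given function of the earlier positions).

New: an infinite, hereditary exact pattern theorem with the index. The classes `c` for which a given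
infinite set `U` is a pattern of consecutive primes with first index `≡ c` in all windows to the right do
not depend on `U` (Ellentuck's theorem, one class after the other), and a further element on the left of
`U` turns `c` into `c + 1`; so all classes occur. The systems of words are then obtained from the
ultrafilter theorem for closed families `Run7.h965.MX.closed_words`. Used from the starting files: the
infinite exact pattern theorem `Pool.Agent.H361R2.Inf.exact_infinite` and Ellentuck's theorem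
`Pool.Agent.H38R3.Ell`.
-/

set_option autoImplicit false

namespace Pool.Agent.Results.MP_be93de_nt.SystemsAtAllIndices

open Finset

/-- The `i`-th prime: `p 1 = 2`, `p 2 = 3`, `p 3 = 5`, and so on. -/
noncomputable def p (i : ℕ) : ℕ := Nat.nth Nat.Prime (i - 1)

/-- For all `R`, in every residue class `c` modulo `M` there are infinitely many `i` such that
`p_i ≡ r` modulo `q`, `p_(i+m) = p_i + g m` for `m ≤ k`, and `p_(i+k+1) > p_i + R`. -/
def AllIndices (q : ℕ) (r : ℤ) (M k : ℕ) (g : ℕ → ℤ) : Prop :=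
  ∀ c R : ℕ, {i : ℕ | 1 ≤ i ∧ i ≡ c [MOD M] ∧ (p i : ℤ) ≡ r [ZMOD q] ∧
    (∀ m ≤ k, (p (i + m) : ℤ) = p i + g m) ∧ (p i : ℤ) + R < p (i + (k + 1))}.Infinite

/-- The word formed by the words `w i (a i)`, `i ∈ I`: in the variable word `w i` the letter `a i` is put
in place of the variable `none`. -/
def word (w : ℕ → List (ℕ × Option ℕ)) (a : ℕ → ℕ) (I : Finset ℕ) : List (ℕ × ℕ) :=
  (I.sort (· ≤ ·)).flatMap fun i => (w i).map fun x => (x.1, x.2.getD (a i))

/-- A sequence of variable words: the variable occurs in each of them, and the positions increase within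
each word and from each word to the next one. -/
structure VariableWords (w : ℕ → List (ℕ × Option ℕ)) : Prop where
  var : ∀ i, ∃ x ∈ w i, x.2 = none
  incr : ∀ i, (w i).Pairwise fun x y => x.1 < y.1
  lt : ∀ i, ∀ x ∈ w i, ∀ y ∈ w (i + 1), x.1 < y.1

/-- **Infinite systems of vectors of consecutive prime gaps at indices in every residue class.** -/
theorem result :
    -- (1) countably many increasing sequences
    (∀ α : ℕ → ℕ → ℤ, (∀ j, StrictMono (α j)) →
      ∀ q : ℕ → ℕ, (∀ j, 1 ≤ q j) → ∀ r : ℕ → ℤ, (∀ j, IsCoprime (r j) (q j : ℤ)) → ∀ B : ℕ → ℕ,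
      ∃ n : ℕ → ℕ, StrictMono n ∧
        ∀ (j k c M : ℕ) (i : ℕ → ℕ), j ≤ i 0 → 1 ≤ c → 1 ≤ M →
          (c ≤ i 0 ∨ ∃ i' < i 0, c ≤ B (n i')) → (M ≤ i 0 ∨ ∃ i' < i 0, M ≤ B (n i')) →
          (∀ l < k, i l < i (l + 1)) →
          (∀ m ≤ k, (q j : ℤ) ∣ c * (α j (n (i m)) - α j (n (i 0)))) ∧
          AllIndices (q j) (r j) M k fun m => c * (α j (n (i m)) - α j (n (i 0)))) ∧
    -- (2) functions of words
    (∀ (φ : ℕ → List (ℕ × ℕ) → ℤ),
      (∀ j s t, s ≠ [] → t ≠ [] → (s ++ t).Pairwise (fun x y => x.1 < y.1) →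
        φ j s < φ j (s ++ t)) →
      ∀ q : ℕ → ℕ, (∀ j, 1 ≤ q j) → ∀ r : ℕ → ℤ, (∀ j, IsCoprime (r j) (q j : ℤ)) →
      ∀ H C : List (List (ℕ × Option ℕ)) → ℕ,
      ∃ w, VariableWords w ∧
        ∀ (j k i₀ c M : ℕ) (F : ℕ → Finset ℕ) (a : ℕ → ℕ), j ≤ i₀ → 1 ≤ c →
          (c = 1 ∨ c ≤ C ((List.range i₀).map w)) → 1 ≤ M →
          (M ≤ i₀ ∨ M ≤ C ((List.range i₀).map w)) →
          (∀ l ≤ k, (F l).Nonempty) → (∀ l ≤ k, ∀ i ∈ F l, i₀ ≤ i) →
          (∀ l < k, ∀ i ∈ F l, ∀ i' ∈ F (l + 1), i < i') →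
          (∀ i, a i ≤ H ((List.range i).map w)) →
          (∀ m ≤ k, (q j : ℤ) ∣
            c * (φ j (word w a ((range (m + 1)).biUnion F)) - φ j (word w a (F 0)))) ∧
          AllIndices (q j) (r j) M k fun m =>
            c * (φ j (word w a ((range (m + 1)).biUnion F)) - φ j (word w a (F 0)))) ∧
    -- (3) arrays of positive integers
    (∀ d : ℕ → ℕ → ℕ → ℕ, (∀ j x a, 1 ≤ d j x a) →
      ∀ q : ℕ → ℕ, (∀ j, 1 ≤ q j) → ∀ r : ℕ → ℤ, (∀ j, IsCoprime (r j) (q j : ℤ)) → ∀ h : ℕ → ℕ,
      ∃ (V W : ℕ → Finset ℕ) (b : ℕ → ℕ), (∀ i, (W i).Nonempty) ∧ (∀ i, Disjoint (V i) (W i)) ∧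
        (∀ i, ∀ x ∈ V i ∪ W i, ∀ y ∈ V (i + 1) ∪ W (i + 1), x < y) ∧
        ∀ (j k : ℕ) (F : ℕ → Finset ℕ) (E : Finset ℕ) (a : ℕ → ℕ) (M : ℕ),
          (∀ l ≤ k, (F l).Nonempty) →
          (∀ l ≤ k, ∀ i ∈ F l, j ≤ i) → (∀ l < k, ∀ i ∈ F l, ∀ i' ∈ F (l + 1), i < i') →
          (∀ i ∈ E, ∀ i' ∈ F 0, i < i') →
          (∀ i, a i ≤ i ∨ ∃ i' < i, ∃ x ∈ V i' ∪ W i', a i ≤ h x) → 1 ≤ M →
          (∀ i ∈ F 0, M ≤ i ∨ ∃ i' < i, ∃ x ∈ V i' ∪ W i', M ≤ h x) →
          AllIndices (q j) (r j) M (k + 1) fun m =>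
            (∏ i ∈ E, (∑ x ∈ V i, (d j x (b x) : ℤ) + ∑ x ∈ W i, (d j x (a i) : ℤ))) *
              ∑ l ∈ range m, ∑ i ∈ F l,
                (∑ x ∈ V i, (d j x (b x) : ℤ) + ∑ x ∈ W i, (d j x (a i) : ℤ))) := by
  refine ⟨fun α hα q hq r hr B => ?_, fun φ hφ q hq r hr H C => ?_, fun d hd q hq r hr h => ?_⟩
  · exact Pool.Agent.Run7.h965.MX.seqsI α hα q hq r hr B
  · obtain ⟨w, hw1, hw2, hw3, hw4⟩ :=
      Pool.Agent.Run7.h965.MX.gapsI_mult φ hφ q hq r hr H C 0
    exact ⟨w, ⟨hw1, fun i => (hw2 i).2.1, hw3⟩, hw4⟩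
  · exact Pool.Agent.Run7.h965.MX.arraysI d hd q hq r hr h

end Pool.Agent.Results.MP_be93de_nt.SystemsAtAllIndices
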